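import Pool.Agent.V11219.SepCont

/-!
There is a Rosenthal compact space that embeds into no space `SCro(X × Y)` of separately continuous
real functions with the cross-open topology with `X` and `Y` Polish.
-/

namespace Pool.Agent.Results.MP_8a822d_gt.CrossOpenNoEmbedding

open Pool.Agent.V11219.SepCont Topology

universe u v

/-- **There is a Rosenthal compact `K` (a pointwise compact set of Baire-one functions on the
Polish space `ℝ`) which is homeomorphic to no subspace of `S(X × Y)` with the cross-open topology,
for any Polish spaces `X` and `Y`.** -/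
theorem result : ∃ K : Set (ℝ → ℝ), IsCompact K ∧
    (∀ f ∈ K, ∃ g : ℕ → ℝ → ℝ, (∀ n, Continuous (g n)) ∧
      ∀ x, Filter.Tendsto (fun n => g n x) Filter.atTop (𝓝 (f x))) ∧
    ∀ (X : Type u) (Y : Type v) [TopologicalSpace X] [TopologicalSpace Y] [PolishSpace X]
      [PolishSpace Y] (e : K → SCro X Y), ¬ IsEmbedding e := by
  refine ⟨Spikes, isCompact_spikes, fun f hf => baireOne_spikes hf, ?_⟩
  intro X Y _ _ _ _ e he
  have : CompactSpace Spikes := isCompact_iff_compactSpace.1 isCompact_spikes
  have hc : IsCompact (Set.range e) := isCompact_range he.continuous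
  have hm := metrizable_cro (Set.range e) hc
  exact not_metrizable_spikes (he.toHomeomorph.isEmbedding.metrizableSpace)

end Pool.Agent.Results.MP_8a822d_gt.CrossOpenNoEmbedding
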